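import Pool.Agent.Helper54.DT.StmtsH

/-! # Quadratic forms of a list of gates -/

namespace Pool.Agent.Helper91.DCT

open Finset Pool.Agent.Helper54.ETR Pool.Agent.Helper54.Poly Pool.Agent.Helper54.DI
open Pool.Agent.Helper54.DT

/-- the chain form -/
def chf (j : ℕ) : SF := [(true, (2 + j, 0)), (false, (1 + j, 1 + j))]

/-- the last form -/
def laf (J n : ℕ) : SF :=
  (List.range (J + 1 + n)).map (fun v => (true, (v + 1, v + 1))) ++
    (true, (J + n + 2, J + n + 2)) :: List.replicate (J + 1 + n) (false, (0, 0))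

/-- the first form -/
def fif : SF := [(true, (1, 0)), (true, (1, 0)), (false, (0, 0))]

theorem mem_FS (E : List Term) (f : SF) : f ∈ FS (E.map Term.toks) ↔
    f = fif ∨ (∃ j < QB E.length, f = chf j) ∨ (∃ e ∈ E, f = gf (QB E.length) e.toks) ∨
      f = laf (QB E.length) E.length := by
  unfold FS
  rw [List.length_map, List.mem_cons, List.mem_append, List.mem_append, List.mem_singleton,
    List.mem_map, List.mem_map]
  constructor
  · rintro (h | ⟨j, hj, rfl⟩ | ⟨l, hl, rfl⟩ | h)
    · exact Or.inl h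
    · exact Or.inr (Or.inl ⟨j, List.mem_range.1 hj, rfl⟩)
    · obtain ⟨e, he, rfl⟩ := List.mem_map.1 hl
      exact Or.inr (Or.inr (Or.inl ⟨e, he, rfl⟩))
    · exact Or.inr (Or.inr (Or.inr h))
  · rintro (h | ⟨j, hj, rfl⟩ | ⟨e, he, rfl⟩ | h)
    · exact Or.inl h
    · exact Or.inr (Or.inl ⟨j, List.mem_range.2 hj, rfl⟩)
    · exact Or.inr (Or.inr (Or.inl ⟨e.toks, List.mem_map.2 ⟨e, he, rfl⟩, rfl⟩))
    · exact Or.inr (Or.inr (Or.inr h))

theorem gf_one (hV : ST_VNUM) (J i : ℕ) :
    Pool.Agent.Helper54.DT.gf J (gOne i).toks = [(true, (J + 2 + i, 0)), (false, (1 + J, 0))] := by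
  unfold Pool.Agent.Helper54.DT.gf
  rw [hV.1]
  rfl

theorem gf_add (hV : ST_VNUM) (J i j k : ℕ) : gf J (gAdd i j k).toks =
    [(true, (J + 2 + i, 0)), (true, (J + 2 + j, 0)), (false, (J + 2 + k, 0))] := by
  unfold Pool.Agent.Helper54.DT.gf
  rw [hV.1]
  rfl

theorem gf_mul (hV : ST_VNUM) (J i j k : ℕ) : gf J (gMul i j k).toks =
    [(true, (J + 2 + i, J + 2 + j)), (false, (1 + J, J + 2 + k))] := by
  unfold Pool.Agent.Helper54.DT.gf
  rw [hV.1]
  rfl

theorem sval_fif (z : ℕ → ℝ) : sval z fif = 2 * (z 1 * z 0) - z 0 * z 0 := by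
  unfold sval fif
  simp
  ring

theorem sval_chf (z : ℕ → ℝ) (j : ℕ) : sval z (chf j) = z (2 + j) * z 0 - z (1 + j) ^ 2 := by
  unfold sval chf
  simp
  ring

theorem sval_one (z : ℕ → ℝ) (J i : ℕ) : sval z [(true, (J + 2 + i, 0)), (false, (1 + J, 0))] =
    (z (J + 2 + i) - z (1 + J)) * z 0 := by
  unfold sval
  simp
  ring

theorem sval_add (z : ℕ → ℝ) (J i j k : ℕ) :
    sval z [(true, (J + 2 + i, 0)), (true, (J + 2 + j, 0)), (false, (J + 2 + k, 0))] =
    (z (J + 2 + i) + z (J + 2 + j) - z (J + 2 + k)) * z 0 := by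
  unfold sval
  simp
  ring

theorem sval_mul (z : ℕ → ℝ) (J i j k : ℕ) :
    sval z [(true, (J + 2 + i, J + 2 + j)), (false, (1 + J, J + 2 + k))] =
    z (J + 2 + i) * z (J + 2 + j) - z (1 + J) * z (J + 2 + k) := by
  unfold sval
  simp
  ring

theorem sval_laf (z : ℕ → ℝ) (J n : ℕ) : sval z (laf J n) =
    ∑ v ∈ range (J + 1 + n), z (v + 1) ^ 2 + z (J + n + 2) ^ 2 - (J + 1 + n : ℕ) * z 0 ^ 2 := by
  have h1 : ∀ m : ℕ, (List.map (fun e : Bool × (ℕ × ℕ) => (if e.1 then (1 : ℝ) else -1) *
      (z e.2.1 * z e.2.2)) ((List.range m).map (fun v => (true, (v + 1, v + 1))))).sum =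
      ∑ v ∈ range m, z (v + 1) ^ 2 := by
    intro m
    induction m with
    | zero => simp
    | succ m ih =>
      rw [List.range_succ, List.map_append, List.map_append, List.sum_append, ih,
        Finset.sum_range_succ]
      simp
      ring
  unfold sval laf
  rw [List.map_append, List.sum_append, h1, List.map_cons, List.sum_cons, List.map_replicate,
    List.sum_replicate]
  simp
  ring

theorem sfb (hV : ST_VNUM) (E : List Term) (hB : ∀ e ∈ E, Basic e)
    (hL : ∀ e ∈ E, e.Below E.length) : SFB (MM (E.map Term.toks)) (FS (E.map Term.toks)) := by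
  intro f hf
  rw [mem_FS] at hf
  have hM : MM (E.map Term.toks) = QB E.length + E.length + 3 := by
    unfold MM
    rw [List.length_map]
  rw [hM]
  rcases hf with rfl | ⟨j, hj, rfl⟩ | ⟨e, he, rfl⟩ | rfl
  · intro a ha
    unfold fif at ha
    simp at ha
    rcases ha with rfl | rfl <;> constructor <;> simp only <;> omega
  · intro a ha
    unfold chf at ha
    simp at ha
    rcases ha with rfl | rfl <;> constructor <;> simp only <;> omega
  · have hb := hL e he
    rcases hB e he with ⟨i, rfl⟩ | ⟨i, j, k, rfl⟩ | ⟨i, j, k, rfl⟩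
    · rw [gf_one hV]
      simp only [gOne, Term.Below] at hb
      intro a ha
      simp at ha
      rcases ha with rfl | rfl <;> constructor <;> simp only <;> omega
    · rw [gf_add hV]
      simp only [gAdd, Term.Below] at hb
      intro a ha
      simp at ha
      rcases ha with rfl | rfl | rfl <;> constructor <;> simp only <;> omega
    · rw [gf_mul hV]
      simp only [gMul, Term.Below] at hb
      intro a ha
      simp at ha
      rcases ha with rfl | rfl <;> constructor <;> simp only <;> omega
  · intro a ha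
    unfold laf at ha
    rw [List.mem_append, List.mem_cons, List.mem_map] at ha
    rcases ha with ⟨v, hv, rfl⟩ | rfl | ha
    · have := List.mem_range.1 hv
      constructor <;> simp only <;> omega
    · constructor <;> simp only <;> omega
    · have := List.eq_of_mem_replicate ha
      subst this
      constructor <;> simp only <;> omega

theorem ccpos (E : List Term) : 0 < CC (MM (E.map Term.toks)) (FS (E.map Term.toks)) := by
  set M := MM (E.map Term.toks) with hM
  have hM3 : 3 ≤ M := by
    rw [hM]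
    unfold MM
    omega
  have h0 : ∀ f : SF, 0 ≤ ∑ v ∈ range M, ∑ w ∈ range M, 2 * cR f v w ^ 2 := fun f =>
    sum_nonneg fun v _ => sum_nonneg fun w _ => by positivity
  have h1 : ∀ l : List SF,
      0 ≤ (l.map fun f => ∑ v ∈ range M, ∑ w ∈ range M, 2 * cR f v w ^ 2).sum := by
    intro l
    refine List.sum_nonneg fun a ha => ?_
    obtain ⟨f, -, rfl⟩ := List.mem_map.1 ha
    exact h0 f
  have h2 : 0 < ∑ v ∈ range M, ∑ w ∈ range M, 2 * cR fif v w ^ 2 := by
    have h3 : 2 * cR fif 1 0 ^ 2 ≤ ∑ v ∈ range M, ∑ w ∈ range M, 2 * cR fif v w ^ 2 := by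
      refine le_trans ?_ (single_le_sum (f := fun v => ∑ w ∈ range M, 2 * cR fif v w ^ 2)
        (fun v _ => sum_nonneg fun w _ => by positivity) (mem_range.2 (by omega : 1 < M)))
      exact single_le_sum (f := fun w => 2 * cR fif 1 w ^ 2)
        (fun w _ => by positivity) (mem_range.2 (by omega : 0 < M))
    have h4 : cR fif 1 0 = 2 := by
      unfold cR cnt fif
      simp
    rw [h4] at h3
    linarith
  unfold CC
  have h5 : ∃ l, FS (E.map Term.toks) = fif :: l := ⟨_, rfl⟩
  obtain ⟨l, hl⟩ := h5
  rw [hl, List.map_cons, List.sum_cons]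
  have := h1 l
  linarith

theorem st_SYS (hBG : ST_BG) (hV : ST_VNUM) : ST_SYS := by
  intro E hB hL
  have hM : MM (E.map Term.toks) = QB E.length + E.length + 3 := by
    unfold MM
    rw [List.length_map]
  refine ⟨sfb hV E hB hL, ccpos E, ⟨?_, ?_⟩, ?_⟩
  · intro hx
    obtain ⟨x, hx0, hx1⟩ := (hBG E hB hL).1 hx
    set J := QB E.length with hJ
    set n := E.length with hn
    set s : ℕ → ℝ := fun j => ((2 : ℝ) ^ 2 ^ j)⁻¹ with hs
    have s0 : ∀ j, 0 < s j := fun j => by positivity
    have s1 : ∀ j, s j ≤ 1 := fun j => inv_le_one_of_one_le₀ (one_le_pow₀ (by norm_num))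
    have ss : ∀ j, s (j + 1) = s j ^ 2 := by
      intro j
      simp only [hs]
      rw [inv_pow, ← pow_mul, pow_succ]
    have sz : s 0 = 1 / 2 := by
      simp [hs]
    set z' : ℕ → ℝ := fun v => if v = 0 then 1 else if v ≤ J + 1 then s (v - 1) else
      s J * x (v - (J + 2)) with hz'
    have z0 : z' 0 = 1 := by simp [hz']
    have z1 : ∀ j, j ≤ J → z' (1 + j) = s j := by
      intro j hj
      simp only [hz']
      rw [if_neg (by omega), if_pos (by omega), show 1 + j - 1 = j by omega]
    have z2 : ∀ i, z' (J + 2 + i) = s J * x i := by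
      intro i
      simp only [hz']
      rw [if_neg (by omega), if_neg (by omega), show J + 2 + i - (J + 2) = i by omega]
    have zb : ∀ v, v < J + 1 + n → z' (v + 1) ^ 2 ≤ 1 := by
      intro v hv
      rw [sq_le_one_iff_abs_le_one]
      rcases Nat.lt_or_ge v (J + 1) with h | h
      · rw [show v + 1 = 1 + v by omega, z1 v (by omega), abs_of_pos (s0 v)]
        exact s1 v
      · obtain ⟨i, rfl⟩ : ∃ i, v = J + 1 + i := ⟨v - (J + 1), by omega⟩
        rw [show J + 1 + i + 1 = J + 2 + i by omega, z2, abs_mul, abs_of_pos (s0 J)]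
        have h2 := hx1 i (by omega)
        calc s J * |x i| ≤ s J * 2 ^ 2 ^ J := mul_le_mul_of_nonneg_left h2 (s0 J).le
          _ = 1 := by
            simp only [hs]
            rw [inv_mul_cancel₀ (by positivity)]
    set R : ℝ := (J + 1 + n : ℕ) - ∑ v ∈ range (J + 1 + n), z' (v + 1) ^ 2 with hR
    have hR0 : 0 ≤ R := by
      have h3 : ∑ v ∈ range (J + 1 + n), z' (v + 1) ^ 2 ≤ ∑ v ∈ range (J + 1 + n), (1 : ℝ) :=
        sum_le_sum fun v hv => zb v (mem_range.1 hv)
      rw [sum_const, card_range, nsmul_eq_mul, mul_one] at h3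
      rw [hR]
      linarith
    set z : ℕ → ℝ := fun v => if v = J + n + 2 then Real.sqrt R else z' v with hz
    have zz : ∀ v, v < J + n + 2 → z v = z' v := by
      intro v hv
      simp only [hz]
      rw [if_neg (by omega)]
    have zl : z (J + n + 2) = Real.sqrt R := by simp [hz]
    have hz0 : z 0 = 1 := by rw [zz 0 (by omega), z0]
    refine ⟨z, hz0, fun f hf => ?_⟩
    rw [mem_FS] at hf
    rcases hf with rfl | ⟨j, hj, rfl⟩ | ⟨e, he, rfl⟩ | rfl
    · have h6 := z1 0 (by omega)
      rw [add_zero, sz] at h6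
      rw [sval_fif, hz0, zz 1 (by omega), h6]
      norm_num
    · rw [sval_chf, hz0, zz (2 + j) (by omega), zz (1 + j) (by omega), z1 j (by omega),
        show 2 + j = 1 + (j + 1) by omega, z1 (j + 1) (by omega), ss]
      ring
    · have hb := hL e he
      have hev := hx0 e he
      rcases hB e he with ⟨i, rfl⟩ | ⟨i, j, k, rfl⟩ | ⟨i, j, k, rfl⟩
      · simp only [gOne, Term.Below] at hb
        simp only [gOne, Term.eval] at hev
        rw [gf_one hV, sval_one, hz0, zz (J + 2 + i) (by omega), zz (1 + J) (by omega), z2,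
          z1 J le_rfl]
        have h4 : x i = 1 := by linarith
        rw [h4]
        ring
      · simp only [gAdd, Term.Below] at hb
        simp only [gAdd, Term.eval] at hev
        rw [gf_add hV, sval_add, hz0, zz (J + 2 + i) (by omega), zz (J + 2 + j) (by omega),
          zz (J + 2 + k) (by omega), z2, z2, z2]
        have h4 : x k = x i + x j := by linarith
        rw [h4]
        ring
      · simp only [gMul, Term.Below] at hb
        simp only [gMul, Term.eval] at hev
        rw [gf_mul hV, sval_mul, zz (J + 2 + i) (by omega), zz (J + 2 + j) (by omega),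
          zz (J + 2 + k) (by omega), zz (1 + J) (by omega), z2, z2, z2, z1 J le_rfl]
        have h4 : x k = x i * x j := by linarith
        rw [h4]
        ring
    · rw [sval_laf, hz0, zl, Real.sq_sqrt hR0]
      have h5 : ∑ v ∈ range (J + 1 + n), z (v + 1) ^ 2 =
          ∑ v ∈ range (J + 1 + n), z' (v + 1) ^ 2 := by
        refine sum_congr rfl fun v hv => ?_
        have := mem_range.1 hv
        rw [zz (v + 1) (by omega)]
      rw [h5, hR]
      ring
  · rintro ⟨z, hz0, hz⟩
    set J := QB E.length with hJ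
    have h1 : z 1 = 1 / 2 := by
      have h := hz fif ((mem_FS E fif).2 (Or.inl rfl))
      rw [sval_fif, hz0] at h
      linarith
    have h2 : ∀ j, j ≤ J → 0 < z (1 + j) := by
      intro j
      induction j with
      | zero =>
        intro _
        rw [show 1 + 0 = 1 from rfl, h1]
        norm_num
      | succ j ih =>
        intro hj
        have h3 := ih (by omega)
        have h := hz (chf j) ((mem_FS E (chf j)).2 (Or.inr (Or.inl ⟨j, by omega, rfl⟩)))
        rw [sval_chf, hz0] at h
        have h4 : z (1 + (j + 1)) = z (1 + j) ^ 2 := by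
          rw [show 1 + (j + 1) = 2 + j by omega]
          linarith
        rw [h4]
        positivity
    have hs := h2 J le_rfl
    refine ⟨fun i => z (J + 2 + i) / z (1 + J), fun e he => ?_⟩
    have h := hz (gf J e.toks) ((mem_FS E _).2 (Or.inr (Or.inr (Or.inl ⟨e, he, rfl⟩))))
    rcases hB e he with ⟨i, rfl⟩ | ⟨i, j, k, rfl⟩ | ⟨i, j, k, rfl⟩
    · rw [gf_one hV, sval_one, hz0] at h
      simp only [gOne, Term.eval]
      have h3 : z (J + 2 + i) = z (1 + J) := by linarith
      rw [h3, div_self hs.ne', sub_self]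
    · rw [gf_add hV, sval_add, hz0] at h
      simp only [gAdd, Term.eval]
      rw [← add_div, ← sub_div]
      have h3 : z (J + 2 + i) + z (J + 2 + j) - z (J + 2 + k) = 0 := by linarith
      rw [h3, zero_div]
    · rw [gf_mul hV, sval_mul] at h
      simp only [gMul, Term.eval]
      have h3 : z (J + 2 + i) * z (J + 2 + j) = z (1 + J) * z (J + 2 + k) := by linarith
      rw [div_mul_div_comm, h3, mul_div_mul_left _ _ hs.ne', sub_self]
  · intro z hz hz0 v hv
    have h := hz (laf (QB E.length) E.length) ((mem_FS E _).2 (Or.inr (Or.inr (Or.inr rfl))))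
    rw [sval_laf, hz0] at h
    have h0 : 0 ≤ ∑ v ∈ range (QB E.length + 1 + E.length), z (v + 1) ^ 2 :=
      sum_nonneg fun v _ => sq_nonneg _
    have h1 : ∑ v ∈ range (QB E.length + 1 + E.length), z (v + 1) ^ 2 = 0 := by
      nlinarith [sq_nonneg (z (QB E.length + E.length + 2))]
    have h2 : z (QB E.length + E.length + 2) ^ 2 = 0 := by
      rw [h1] at h
      linarith
    rw [hM] at hv
    rcases Nat.eq_zero_or_pos v with rfl | hvp
    · exact hz0
    · rcases Nat.lt_or_ge v (QB E.length + E.length + 2) with h3 | h3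
      · have h4 := (sum_eq_zero_iff_of_nonneg fun v _ => sq_nonneg (z (v + 1))).1 h1 (v - 1)
          (mem_range.2 (by omega))
        rw [show v - 1 + 1 = v by omega] at h4
        exact pow_eq_zero_iff (two_ne_zero) |>.1 h4
      · have h4 : v = QB E.length + E.length + 2 := by omega
        rw [h4]
        exact pow_eq_zero_iff (two_ne_zero) |>.1 h2

end Pool.Agent.Helper91.DCT
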